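import Pool.Agent.U739.IS.ZMain2

set_option autoImplicit false

/-! # The motivic monodromy conjecture for powers of forms with isolated weighted homogeneous
singularities in the projective space

Let `F` be a form of degree `d > 0` in `m + 1` variables, such that `F = 0` has only isolated weighted
homogeneous singularities in `P^m`, and `f = F ^ a`, `a ≥ 1`, on `X = ℂ ^ (m + 1)`. The local motivic zeta
function (with angular component `1`) of `f` is treated at all points of `f = 0`. The candidate poles
are `-(m+1)/(a d)` (only at the origin), `-1/a`, and the numbers `-∑ w_i / (a D)` of the singular points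
of `F = 0`. The main point is the first number: it is a root of the Bernstein-Sato polynomial of
`F ^ a`, if there is no linear vector field `v` with `v(F) = 0` and nonzero trace, see
`Pool.Agent.U739.IS.Core` (the proof is sketched in the files `Core`, `Gl` and `Loc`), and it is not a
pole, if there is one, because `F` then has a second grading, see `Pool.Agent.U739.IS.Exc`. -/

namespace Pool.Agent.Results.MP_b91a16_ag.IsolatedCones

open MvPolynomial Pool.Agent.U739.IS Pool.Agent.W574.MO Pool.Agent.H628R4.TP

/-- **The motivic monodromy conjecture for powers of forms in `m + 1` variables with isolated weighted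
homogeneous singularities.** `M` is a commutative ring with a unit `L`, for example
`M = K₀(Var_ℂ)[1/L]`. Let `F` be a form of degree `d > 0` in `m + 1` variables, such that `F = 0` has only
isolated weighted homogeneous singularities in `P^m`, in coordinates such that the section by
`x_0 = 0` is smooth (`IsoForm F d`), let `f = F ^ a`, `a ≥ 1`, and let `b` be a polynomial which satisfies a
functional equation `b(s) f ^ s = P(s) f ^ (s + 1)` (in particular the Bernstein-Sato polynomial of `f`).
Let `R` be the ring `M[T][(1 - L^(-ν) T^N)⁻¹]`, where the pairs `N, ν ≥ 1` are such that `-ν/N` is a root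
of `b`.

* Let `Z` be the local motivic zeta function of `f` at the origin (with angular component `1`, see
  `MotIso`). Then `(L ^ k - 1) Z ∈ R` for some `k ≥ 1`, and `Z ∈ R`, if no `L ^ k - 1` is a zero divisor
  in `M`, or if there is no linear vector field `v` with `v(F) = 0` and nonzero trace.
* The local motivic zeta function `Z` of `f` at another point `x` with `F(x) = 0` (`PointIso`) lies in
  `R`. -/
theorem result {M : Type} [CommRing M] (L : Mˣ) {m : ℕ} (F : MvPolynomial (Fin (m + 1)) ℂ)
    (d a : ℕ) (hF : IsoForm F d) (ha : 1 ≤ a) (b : Polynomial ℂ) (hb : IsBFunction (F ^ a) b) :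
    (∀ Z : PowerSeries M, MotIso L F a Z →
      (∃ k : ℕ, 1 ≤ k ∧ PowerSeries.C ((L : M) ^ k - 1) * Z ∈ DenRing L (RootPair b)) ∧
      ((NoTrace F ∨ ∀ k : ℕ, 1 ≤ k → (L : M) ^ k - 1 ∈ nonZeroDivisors M) →
        Z ∈ DenRing L (RootPair b))) ∧
    (∀ (x : Fin (m + 1) → ℂ) (Z : PowerSeries M), PointIso L F a x Z →
      Z ∈ DenRing L (RootPair b)) :=
  ⟨fun Z hZ => mot_main hF ha b hb hZ, fun x Z hZ => point_mem hF ha b hb x hZ⟩

end Pool.Agent.Results.MP_b91a16_ag.IsolatedCones
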